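import Pool.Agent.H429R2.GP.LogC
import Pool.Agent.H429R2.GP.Fin

/-!
# The Lindelof hypothesis and the values of the zeta function at Gram points

The `ω`-Gram points (`ω` a fixed complex number of modulus one) are the real `g` at which
`conj ω * ζ(1/2 + i g)` is real for the trivial reason that the factor `X(s)` of the functional
equation `ζ(s) = X(s) ζ(1 - s)` satisfies `X(1/2 + i g) = ω ^ 2`; for `ω = 1` they are the classical
Gram points.  We prove an unconditional local inequality: `|ζ(1/2 + i t)|` is bounded, up to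
logarithms, by the negative part of `conj ω * ζ` at the Gram points within distance `O(√log t)`
of `t`.  Consequently the order of the zeta function on the critical line is determined by a
one-sided bound at the Gram points only, and the Lindelof hypothesis is equivalent to a weak form
of Gram's law.
-/

open Complex

namespace Pool.Agent.Results.MP_4e5e8a_nt.GramPoints

/-- The real number `g` is an `ω`-Gram point: with `Γ_ℝ(s) = π ^ (-s/2) Γ(s/2)`, the factor
`X(s) = Γ_ℝ(1 - s) / Γ_ℝ(s)` of the functional equation `ζ(s) = X(s) ζ(1 - s)` takes the value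
`ω ^ 2` at `s = 1/2 + i g`.  For `ω = 1` this says that `Γ_ℝ(1/2 + i g)` is real, that is, `g` is
a classical Gram point. -/
def GramPoint (ω : ℂ) (g : ℝ) : Prop :=
  Gammaℝ (1 / 2 - g * I) = ω ^ 2 * Gammaℝ (1 / 2 + g * I)

theorem gram_iff {ω : ℂ} {g : ℝ} :
    GramPoint ω g ↔ H370.DL.XX (1 : DirichletCharacter ℂ 1) ⟨1 / 2, g⟩ = ω ^ 2 := by
  have h1 : (⟨1 / 2, g⟩ : ℂ) = 1 / 2 + g * I := by
    apply Complex.ext <;> simp
  have h2 : (1 : ℂ) - (1 / 2 + g * I) = 1 / 2 - g * I := by ring
  have heven : (1 : DirichletCharacter ℂ 1).Even := by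
    unfold DirichletCharacter.Even
    exact MulChar.one_apply (isUnit_of_subsingleton _)
  have haa : H370.DL.aa (1 : DirichletCharacter ℂ 1) = 0 := by
    unfold H370.DL.aa
    rw [if_pos heven]
  unfold GramPoint H370.DL.XX
  rw [h1, h2, haa, add_zero, add_zero, DirichletCharacter.rootNumber_modOne]
  have hne : Gammaℝ (1 / 2 + g * I) ≠ 0 := by
    apply Gammaℝ_ne_zero_of_re_pos
    simp
  rw [div_eq_iff hne]
  simp

theorem result (ω : ℂ) (hω : ‖ω‖ = 1) :
    (∃ C : ℝ, 0 < C ∧ ∀ t M : ℝ, 0 ≤ M →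
      (∀ g : ℝ, |g - t| ≤ 6 * √(1 + Real.log (1 + |t|)) → GramPoint ω g →
        -M ≤ ((starRingEnd ℂ) ω * riemannZeta (1 / 2 + g * I)).re) →
      ‖riemannZeta (1 / 2 + t * I)‖ ≤
        C * (1 + Real.log (1 + |t|)) * (1 + Real.log (1 + |t|) + M)) ∧
    (∀ κ : ℝ, 0 ≤ κ →
      ((∀ ε : ℝ, 0 < ε → ∃ B : ℝ, ∀ t : ℝ,
          ‖riemannZeta (1 / 2 + t * I)‖ ≤ B * (1 + |t|) ^ (κ + ε)) ↔
        (∀ ε : ℝ, 0 < ε → ∃ B : ℝ, ∀ g : ℝ, GramPoint ω g →
          -B * (1 + |g|) ^ (κ + ε) ≤
            ((starRingEnd ℂ) ω * riemannZeta (1 / 2 + g * I)).re))) := by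
  have hprim : (1 : DirichletCharacter ℂ 1).IsPrimitive :=
    DirichletCharacter.isPrimitive_one_level_one
  have hmk : ∀ y : ℝ, (⟨1 / 2, y⟩ : ℂ) = 1 / 2 + y * I := by
    intro y
    apply Complex.ext <;> simp
  have hL : ∀ y : ℝ, DirichletCharacter.LFunction (1 : DirichletCharacter ℂ 1) ⟨1 / 2, y⟩ =
      riemannZeta (1 / 2 + y * I) := by
    intro y
    rw [DirichletCharacter.LFunction_modOne_eq, hmk]
  constructor
  · obtain ⟨C, hC, h⟩ := H429.GP.local_transfer_log hprim hω
    refine ⟨C, hC, ?_⟩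
    intro t M hM hg
    have h1 := h t M hM (by
      intro y hy hX
      rw [hL]
      apply hg y _ (gram_iff.mpr hX)
      simpa using hy)
    rw [hL] at h1
    simpa using h1
  · intro κ hκ
    constructor
    · intro h ε hε
      obtain ⟨B, hB⟩ := h ε hε
      refine ⟨B, fun g _ => ?_⟩
      have h6 := (abs_le.mp (abs_re_le_norm ((starRingEnd ℂ) ω *
        riemannZeta (1 / 2 + g * I)))).1
      rw [norm_mul, RCLike.norm_conj, hω, one_mul] at h6
      have h7 := hB g
      linarith
    · intro h ε hε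
      obtain ⟨B, hB⟩ := h (ε / 2) (by linarith)
      obtain ⟨C, hC, htr⟩ := H429.GP.transfer hω (κ := κ + ε / 2) (ε := ε / 2) (by linarith)
        (by linarith)
      refine ⟨C * (1 + |B|), ?_⟩
      intro t
      have hone : H429.GP.OneSidedAt 1 (1 : DirichletCharacter ℂ 1) ω (κ + ε / 2) |B| := by
        intro y hy
        have h1 := hB y (gram_iff.mpr hy)
        rw [hL]
        refine le_trans ?_ h1
        rw [Nat.cast_one, one_mul]
        apply mul_le_mul_of_nonneg_right _ (by positivity)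
        linarith [le_abs_self B]
      have h3 := htr 1 1 hprim |B| (abs_nonneg B) hone t
      rw [hL, Nat.cast_one, one_mul] at h3
      have h5 : κ + ε / 2 + ε / 2 = κ + ε := by ring
      rw [h5] at h3
      exact h3

end Pool.Agent.Results.MP_4e5e8a_nt.GramPoints
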