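import Mathlib
import Pool.Agent.H855R2.LH.Cor

/-!
Sampling the zeta function on the critical line: the order of growth of `ζ(1/2+it)` is determined
by its values on point sets of the density of its zeros.
-/

open Complex Filter Topology

namespace Pool.Agent.Results.MP_4e5e8a_nt.Sampling

/-- `|ζ(1/2+it)| ≤ C_ε (1+|t|)^(μ+ε)` for all real `t`, for every `ε > 0`. `ZetaOrder 0` is the
Lindelof hypothesis. -/
def ZetaOrder (μ : ℝ) : Prop :=
  ∀ ε : ℝ, 0 < ε → ∃ C : ℝ, ∀ t : ℝ, ‖riemannZeta (1 / 2 + t * I)‖ ≤ C * (1 + |t|) ^ (μ + ε)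

/-- For every `D < 1 - 4μ` and `ε > 0`, every interval `[T, T + 2π/(D log T)]` with `T` large
contains a point `t` with `|ζ(1/2+it)| ≤ T^(μ+ε)`. -/
def SmallGaps (μ : ℝ) : Prop :=
  ∀ D : ℝ, 0 < D → D < 1 - 4 * μ → ∀ ε : ℝ, 0 < ε → ∃ T0 : ℝ, ∀ T : ℝ, T0 ≤ T →
    ∃ t : ℝ, T ≤ t ∧ t ≤ T + 2 * Real.pi / (D * Real.log T) ∧
      ‖riemannZeta (1 / 2 + t * I)‖ ≤ T ^ (μ + ε)

/-- There is a sequence `u_n → ∞` with `u_{n+1} - u_n ≤ 2π/(D log u_n)` for large `n`, for every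
`D < 1 - 4μ`, such that `|ζ(1/2+i u_n)| ≤ C_ε (1+|u_n|)^(μ+ε)` for all `n`, for every `ε > 0`. -/
def SampledBound (μ : ℝ) : Prop :=
  ∃ u : ℕ → ℝ, Tendsto u atTop atTop ∧
    (∀ D : ℝ, 0 < D → D < 1 - 4 * μ → ∀ᶠ n : ℕ in atTop,
      u (n + 1) - u n ≤ 2 * Real.pi / (D * Real.log (u n))) ∧
    ∀ ε : ℝ, 0 < ε → ∃ C : ℝ, ∀ n : ℕ,
      ‖riemannZeta (1 / 2 + (u n : ℂ) * I)‖ ≤ C * (1 + |u n|) ^ (μ + ε)

/-- For every `D < 1 - 4μ` and `ε > 0` there is `c > 0` such that every window `[T, T+h]` contains,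
for `T` large in terms of `h`, at least `D (h log T)/(2π)` points with mutual distances at least
`c / log T` at which `|ζ(1/2+it)| ≤ T^(μ+ε)`. -/
def SmallValueDensity (μ : ℝ) : Prop :=
  ∀ D : ℝ, 0 < D → D < 1 - 4 * μ → ∀ ε : ℝ, 0 < ε → ∃ c : ℝ, 0 < c ∧
    ∀ h : ℝ, 0 < h → ∃ T0 : ℝ, ∀ T : ℝ, T0 ≤ T →
    ∃ F : Finset ℝ, D * (h * Real.log T / (2 * Real.pi)) ≤ F.card ∧
      (∀ t ∈ F, T ≤ t ∧ t ≤ T + h ∧ ‖riemannZeta (1 / 2 + t * I)‖ ≤ T ^ (μ + ε)) ∧
      (∀ t ∈ F, ∀ u ∈ F, t ≠ u → c / Real.log T ≤ |t - u|)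

/-- For some `ρ > 0`, for every `ε > 0` and `h > 0` and all large `T`, the set where
`|ζ(1/2+it)| ≤ T^(μ+ε)` has measure at least `ρ h` in `[T, T+h]`. -/
def PositiveProportion (μ : ℝ) : Prop :=
  ∃ ρ : ℝ, 0 < ρ ∧ ∀ ε : ℝ, 0 < ε → ∀ h : ℝ, 0 < h →
    ∃ T0 : ℝ, ∀ T : ℝ, T0 ≤ T → ENNReal.ofReal (ρ * h) ≤ MeasureTheory.volume
      {t : ℝ | T ≤ t ∧ t ≤ T + h ∧ ‖riemannZeta (1 / 2 + t * I)‖ ≤ T ^ (μ + ε)}

open H855R2.LH in
theorem dens_iff {μ : ℝ} (hD : 0 < 1 - 4 * μ) :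
    SmallValueDensity μ ↔ Dens (1 / (1 - 4 * μ)) μ := by
  have hpi := Real.pi_pos
  constructor
  · intro h θ' hθ' ε hε
    have hθ'0 : 0 < θ' := lt_trans (by positivity) hθ'
    have h1 : 1 / θ' < 1 - 4 * μ := by
      rw [div_lt_iff₀ hθ'0]
      rw [div_lt_iff₀ hD] at hθ'
      linarith
    obtain ⟨c, hc, h2⟩ := h (1 / θ') (by positivity) h1 ε hε
    refine ⟨c, hc, fun w hw => ?_⟩
    obtain ⟨T0, hT0⟩ := h2 w hw
    refine ⟨T0, fun T hT => ?_⟩
    obtain ⟨F, hF1, hF2, hF3⟩ := hT0 T hT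
    refine ⟨F, le_trans (le_of_eq ?_) hF1, hF2, hF3⟩
    field_simp
  · intro h D' hD'0 hD' ε hε
    have h1 : 1 / (1 - 4 * μ) < 1 / D' := one_div_lt_one_div_of_lt hD'0 hD'
    obtain ⟨c, hc, h2⟩ := h (1 / D') h1 ε hε
    refine ⟨c, hc, fun w hw => ?_⟩
    obtain ⟨T0, hT0⟩ := h2 w hw
    refine ⟨T0, fun T hT => ?_⟩
    obtain ⟨F, hF1, hF2, hF3⟩ := hT0 T hT
    refine ⟨F, le_trans (le_of_eq ?_) hF1, hF2, hF3⟩
    field_simp

open H855R2.LH in
theorem gap_of_smallGaps {μ : ℝ} (hD : 0 < 1 - 4 * μ) (h : SmallGaps μ) :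
    Gap (1 / (1 - 4 * μ)) μ := by
  intro θ' hθ' ε hε
  have hθ'0 : 0 < θ' := lt_trans (by positivity) hθ'
  have h1 : 1 / θ' < 1 - 4 * μ := by
    rw [div_lt_iff₀ hθ'0]
    rw [div_lt_iff₀ hD] at hθ'
    linarith
  obtain ⟨T0, hT0⟩ := h (1 / θ') (by positivity) h1 ε hε
  refine ⟨max T0 2, fun T hT => ?_⟩
  obtain ⟨t, ht1, ht2, ht3⟩ := hT0 T ((le_max_left _ _).trans hT)
  have h2 : 2 ≤ T := (le_max_right _ _).trans hT
  refine ⟨t, ht1, ht2.trans (le_of_eq ?_), ht3⟩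
  have h3 : 0 < Real.log T := Real.log_pos (by linarith)
  field_simp

/-- **Sampling theorem for the order of zeta on the critical line.** For `0 ≤ μ < 1/4` the bound
`ζ(1/2+it) ≪ |t|^(μ+ε)` is equivalent to its restriction to point sets of relative density `1 - 4μ`,
the density `1` being that of the zeros, `(log T)/(2π)`. For `μ = 0` this is a criterion for the
Lindelof hypothesis. -/
theorem result (μ : ℝ) (hμ0 : 0 ≤ μ) (hμ1 : μ < 1 / 4) :
    List.TFAE [ZetaOrder μ, SmallGaps μ, SampledBound μ, SmallValueDensity μ,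
      PositiveProportion μ] := by
  have hpi := Real.pi_pos
  have hD : 0 < 1 - 4 * μ := by linarith
  tfae_have 1 → 3 := by
    intro h
    refine ⟨fun n => Real.sqrt ((n : ℝ) + 1), ?_, ?_, fun ε hε => ?_⟩
    · exact Real.tendsto_sqrt_atTop.comp
        (tendsto_atTop_add_const_right _ _ tendsto_natCast_atTop_atTop)
    · intro D hD0 hD1
      filter_upwards [eventually_ge_atTop 3] with n hn
      have hn3 : (3:ℝ) ≤ n := by exact_mod_cast hn
      have h4 : 2 ≤ Real.sqrt ((n : ℝ) + 1) := by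
        apply Real.le_sqrt_of_sq_le
        linarith
      set s : ℝ := Real.sqrt ((n : ℝ) + 1) with hs
      have hs2 : s ^ 2 = n + 1 := Real.sq_sqrt (by linarith)
      have h5 : Real.sqrt (((n + 1 : ℕ) : ℝ) + 1) ≤ s + 1 / s := by
        apply Real.sqrt_le_iff.2
        constructor
        · positivity
        · have : (s + 1 / s) ^ 2 = s ^ 2 + 2 + (1 / s) ^ 2 := by
            field_simp
            ring
          rw [this, hs2]
          push_cast
          have : 0 ≤ (1 / s) ^ 2 := by positivity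
          linarith
      have hlog0 : 0 < Real.log s := Real.log_pos (by linarith)
      have hlog : Real.log s ≤ s := (Real.log_le_sub_one_of_pos (by linarith)).trans (by linarith)
      have h6 : 1 / s ≤ 2 * Real.pi / (D * Real.log s) := by
        rw [div_le_div_iff₀ (by linarith) (by positivity)]
        have h7 : D * Real.log s ≤ 1 * s := mul_le_mul (by linarith) hlog hlog0.le (by norm_num)
        have h8 : 1 * s ≤ 2 * Real.pi * s := by
          apply mul_le_mul_of_nonneg_right _ (by linarith)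
          linarith [Real.pi_gt_three]
        linarith
      linarith
    · obtain ⟨C, hC⟩ := h ε hε
      exact ⟨C, fun n => hC _⟩
  tfae_have 3 → 2 := by
    rintro ⟨u, hu, hgap, hval⟩
    have hG : H855R2.LH.Gap (1 / (1 - 4 * μ)) μ := by
      apply H855R2.LH.seq_gap (by positivity) hμ0 u hu
      · intro θ' hθ'
        have hθ'0 : 0 < θ' := lt_trans (by positivity) hθ'
        have h1 : 1 / θ' < 1 - 4 * μ := by
          rw [div_lt_iff₀ hθ'0]
          rw [div_lt_iff₀ hD] at hθ'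
          linarith
        filter_upwards [hgap (1 / θ') (by positivity) h1, hu.eventually_ge_atTop 2] with n hn hn2
        refine hn.trans (le_of_eq ?_)
        have h3 : 0 < Real.log (u n) := Real.log_pos (by linarith)
        field_simp
      · intro ε hε
        obtain ⟨C, hC⟩ := hval ε hε
        refine ⟨|C| * 2 ^ (μ + ε), ?_⟩
        filter_upwards [hu.eventually_ge_atTop 1] with n hn
        refine (hC n).trans ?_
        rw [abs_of_pos (by linarith : 0 < u n)]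
        calc C * (1 + u n) ^ (μ + ε) ≤ |C| * (2 * u n) ^ (μ + ε) := by
              apply mul_le_mul (le_abs_self C) _ (by positivity) (abs_nonneg C)
              apply Real.rpow_le_rpow (by positivity) (by linarith) (by positivity)
          _ = |C| * 2 ^ (μ + ε) * (u n) ^ (μ + ε) := by
              rw [Real.mul_rpow (by norm_num) (by linarith)]; ring
    intro D hD0 hD1 ε hε
    have h1 : 1 / (1 - 4 * μ) < 1 / D := one_div_lt_one_div_of_lt hD0 hD1
    obtain ⟨T0, hT0⟩ := hG (1 / D) h1 ε hε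
    refine ⟨max T0 2, fun T hT => ?_⟩
    obtain ⟨t, ht1, ht2, ht3⟩ := hT0 T ((le_max_left _ _).trans hT)
    have h2 : 2 ≤ T := (le_max_right _ _).trans hT
    refine ⟨t, ht1, ht2.trans (le_of_eq ?_), ht3⟩
    have h3 : 0 < Real.log T := Real.log_pos (by linarith)
    field_simp
  tfae_have 2 → 4 := by
    intro h
    rw [dens_iff hD]
    exact H855R2.LH.gap_dens (by positivity) hμ0 (gap_of_smallGaps hD h)
  tfae_have 4 → 1 := by
    intro h
    have h1 := H855R2.LH.dens_main (θ := 1 / (1 - 4 * μ)) (by positivity) hμ0 ((dens_iff hD).1 h)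
    have e : (1 / (1 - 4 * μ) - 1) / (4 * (1 / (1 - 4 * μ))) = μ := by
      field_simp
      ring
    rw [e, max_self] at h1
    exact h1
  tfae_have 1 → 5 := by
    intro h
    refine ⟨1, one_pos, fun ε hε w hw => ?_⟩
    obtain ⟨T0, hT0⟩ := H855R2.LH.ZO_large hμ0 h (ε / 2) (by positivity)
    have ev : ∀ᶠ T : ℝ in atTop, (2:ℝ) ^ (μ + ε / 2) ≤ T ^ (ε / 2) :=
      (tendsto_rpow_atTop (by positivity)).eventually_ge_atTop _
    obtain ⟨T1, hT1⟩ := eventually_atTop.1 (ev.and ((eventually_ge_atTop T0).and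
      ((eventually_ge_atTop 1).and (eventually_ge_atTop w))))
    refine ⟨T1, fun T hT => ?_⟩
    obtain ⟨e1, e2, e3, e4⟩ := hT1 T hT
    have hT0' : 0 < T := by linarith
    have hsub : Set.Icc T (T + w) ⊆
        {t : ℝ | T ≤ t ∧ t ≤ T + w ∧ ‖riemannZeta (1 / 2 + t * I)‖ ≤ T ^ (μ + ε)} := by
      intro t ht
      refine ⟨ht.1, ht.2, (hT0 t (by linarith [ht.1])).trans ?_⟩
      calc t ^ (μ + ε / 2) ≤ (2 * T) ^ (μ + ε / 2) := by
            apply Real.rpow_le_rpow (by linarith [ht.1]) (by linarith [ht.2]) (by positivity)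
        _ = 2 ^ (μ + ε / 2) * T ^ (μ + ε / 2) := Real.mul_rpow (by norm_num) hT0'.le
        _ ≤ T ^ (ε / 2) * T ^ (μ + ε / 2) := mul_le_mul_of_nonneg_right e1 (by positivity)
        _ = T ^ (μ + ε) := by rw [← Real.rpow_add hT0']; congr 1; ring
    refine le_trans (le_of_eq ?_) (MeasureTheory.measure_mono hsub)
    rw [Real.volume_Icc]
    congr 1
    ring
  tfae_have 5 → 1 := by
    rintro ⟨ρ, hρ, h⟩
    have h1 := H855R2.LH.meas_dens hρ h (θ := 1) one_pos
    have h2 := H855R2.LH.dens_main one_pos hμ0 h1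
    have e : max μ ((1 - 1) / (4 * 1)) = μ := by
      rw [max_eq_left]; norm_num; exact hμ0
    rw [e] at h2
    exact h2
  tfae_finish

end Pool.Agent.Results.MP_4e5e8a_nt.Sampling
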