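import Mathlib
import Pool.Agent.H388LH.Mel

/-!
Signed moments of the Riemann zeta function on the critical line and the Lindelof hypothesis.

For every `k ≥ 1` the growth exponent of the error term in the signed (no absolute values)
moment `∫_0^T ζ(1/2+it)^k dt = T + ...` is exactly `k` times the growth exponent of `ζ(1/2+it)`;
a one-sided bound in a single direction is already enough, and so is the conditional convergence
of `∫_1^∞ (ζ(1/2+it)^k - 1) t^(-w) dt`.
-/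

open Complex Filter Topology Set MeasureTheory

namespace Pool.Agent.Results.MP_4e5e8a_nt.SignedMoments

open Pool.Agent.H388LH

/-- `ZetaOrder θ`: for every `ε > 0` one has `|ζ(1/2+it)| ≤ C_ε (1+|t|)^(θ+ε)` for all real `t`.
`ZetaOrder 0` is the Lindelof hypothesis. -/
def ZetaOrder (θ : ℝ) : Prop :=
  ∀ ε : ℝ, 0 < ε → ∃ C : ℝ, ∀ t : ℝ, ‖riemannZeta (1 / 2 + t * I)‖ ≤ C * (1 + |t|) ^ (θ + ε)

/-- the signed moment `∫_0^T ζ(1/2+it)^k dt` -/
noncomputable def signedMoment (k : ℕ) (T : ℝ) : ℂ :=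
  ∫ t in (0:ℝ)..T, riemannZeta (1 / 2 + t * I) ^ k

theorem signedMoment_eq (k : ℕ) (T : ℝ) :
    signedMoment k T - T = (∫ t in (0:ℝ)..1, fk k (1 / 2 + t * I)) + EE k T := by
  unfold EE
  rw [intervalIntegral.integral_add_adjacent_intervals ((cont_fk k).intervalIntegrable _ _)
    ((cont_fk k).intervalIntegrable _ _)]
  unfold signedMoment fk
  have hc : Continuous (fun t : ℝ => riemannZeta (1 / 2 + t * I) ^ k) := cont_zeta_line.pow k
  rw [intervalIntegral.integral_sub (hc.intervalIntegrable _ _)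
    (continuous_const.intervalIntegrable _ _)]
  simp

theorem main (k : ℕ) (a : ℝ) (ω : ℂ) (hk : 1 ≤ k) (ha : 0 ≤ a) (hω : ω ≠ 0) : List.TFAE [
      ZetaOrder (a / k),
      ∀ ε : ℝ, 0 < ε → ∃ C : ℝ, ∀ T : ℝ, 1 ≤ T → ‖signedMoment k T - T‖ ≤ C * T ^ (a + ε),
      ∀ ε : ℝ, 0 < ε → ∃ C : ℝ, ∀ T : ℝ, 1 ≤ T →
        (ω * (signedMoment k T - T)).re ≤ C * T ^ (a + ε),
      ∀ w : ℝ, a < w → ∃ L : ℂ, Tendsto (fun X : ℝ =>
        ∫ t in (1:ℝ)..X, (riemannZeta (1 / 2 + t * I) ^ k - 1) * ((t ^ (-w) : ℝ) : ℂ))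
          atTop (𝓝 L)] := by
  have hkr : (0:ℝ) < k := by exact_mod_cast hk
  set c0 : ℂ := ∫ t in (0:ℝ)..1, fk k (1 / 2 + t * I) with hc0
  have hEM : ∀ T : ℝ, EE k T = (signedMoment k T - T) - c0 := by
    intro T
    rw [signedMoment_eq]
    ring
  tfae_have 1 → 2 := by
    intro h ε hε
    obtain ⟨C, hC⟩ := h (ε / k) (by positivity)
    obtain ⟨C', hC'0, hC'⟩ := EE_upper (k := k) (β := a / k + ε / k) (C := max C 0) (by positivity)
      (le_max_right _ _) (fun t => (hC t).trans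
        (mul_le_mul_of_nonneg_right (le_max_left _ _) (by positivity)))
    refine ⟨‖c0‖ + C', fun T hT => ?_⟩
    have e : (k : ℝ) * (a / k + ε / k) = a + ε := by field_simp
    have h1 := hC' T hT
    rw [e] at h1
    rw [signedMoment_eq]
    have h2 : (1:ℝ) ≤ T ^ (a + ε) := Real.one_le_rpow hT (by positivity)
    calc ‖c0 + EE k T‖ ≤ ‖c0‖ + ‖EE k T‖ := norm_add_le _ _
      _ ≤ (‖c0‖ + C') * T ^ (a + ε) := by nlinarith [norm_nonneg c0]
  tfae_have 2 → 3 := by
    intro h ε hε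
    obtain ⟨C, hC⟩ := h ε hε
    refine ⟨‖ω‖ * C, fun T hT => ?_⟩
    calc (ω * (signedMoment k T - T)).re ≤ ‖ω * (signedMoment k T - T)‖ := Complex.re_le_norm _
      _ = ‖ω‖ * ‖signedMoment k T - T‖ := norm_mul _ _
      _ ≤ ‖ω‖ * (C * T ^ (a + ε)) := mul_le_mul_of_nonneg_left (hC T hT) (norm_nonneg _)
      _ = ‖ω‖ * C * T ^ (a + ε) := by ring
  tfae_have 3 → 1 := by
    intro h ε hε
    obtain ⟨C, hC⟩ := h (k * ε / 2) (by positivity)
    have h1 := zeta_of_one_sided (k := k) hk hω (b := a + k * ε / 2) (C := |C| + ‖ω * c0‖)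
      (by positivity) (by positivity) (by
        intro T hT
        have h2 := hC T hT
        have h3 : (1:ℝ) ≤ T ^ (a + k * ε / 2) := Real.one_le_rpow hT (by positivity)
        have h4 : (ω * EE k T).re = (ω * (signedMoment k T - T)).re - (ω * c0).re := by
          rw [hEM, mul_sub, Complex.sub_re]
        have h5 := Complex.abs_re_le_norm (ω * c0)
        have h6 := neg_abs_le (ω * c0).re
        have h7 : C * T ^ (a + k * ε / 2) ≤ |C| * T ^ (a + k * ε / 2) :=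
          mul_le_mul_of_nonneg_right (le_abs_self C) (by positivity)
        rw [h4]
        nlinarith [norm_nonneg (ω * c0)]) (ε / 2) (by positivity)
    have e : (a + k * ε / 2) / k + ε / 2 = a / k + ε := by
      field_simp
      ring
    rw [e] at h1
    exact h1
  tfae_have 2 → 4 := by
    intro h w hw
    obtain ⟨C, hC⟩ := h ((w - a) / 2) (by linarith)
    apply conv_of_bound (f := fun t : ℝ => fk k (1 / 2 + t * I)) (cont_fk k)
      (b := a + (w - a) / 2) (C := |C| + ‖c0‖) (by linarith) (by linarith)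
    intro X hX
    have h1 := hC X hX
    have h3 : (1:ℝ) ≤ X ^ (a + (w - a) / 2) := Real.one_le_rpow hX (by linarith)
    have h4 : (∫ t in (1:ℝ)..X, fk k (1 / 2 + t * I)) = (signedMoment k X - X) - c0 := hEM X
    rw [h4]
    have h7 : C * X ^ (a + (w - a) / 2) ≤ |C| * X ^ (a + (w - a) / 2) :=
      mul_le_mul_of_nonneg_right (le_abs_self C) (by positivity)
    calc ‖(signedMoment k X - X) - c0‖ ≤ ‖signedMoment k X - X‖ + ‖c0‖ := norm_sub_le _ _
      _ ≤ (|C| + ‖c0‖) * X ^ (a + (w - a) / 2) := by nlinarith [norm_nonneg c0]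
  tfae_have 4 → 2 := by
    intro h ε hε
    obtain ⟨C, hC0, hC⟩ := bound_of_conv (f := fun t : ℝ => fk k (1 / 2 + t * I)) (cont_fk k)
      (w := a + ε) (by linarith) (h (a + ε) (by linarith))
    refine ⟨‖c0‖ + C, fun T hT => ?_⟩
    have h1 : ‖EE k T‖ ≤ C * T ^ (a + ε) := hC T hT
    rw [signedMoment_eq]
    have h2 : (1:ℝ) ≤ T ^ (a + ε) := Real.one_le_rpow hT (by positivity)
    calc ‖c0 + EE k T‖ ≤ ‖c0‖ + ‖EE k T‖ := norm_add_le _ _
      _ ≤ (‖c0‖ + C) * T ^ (a + ε) := by nlinarith [norm_nonneg c0]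
  tfae_finish

/-- **Signed moments and the Lindelof hypothesis.** -/
theorem result :
    (∀ (k : ℕ) (a : ℝ) (ω : ℂ), 1 ≤ k → 0 ≤ a → ω ≠ 0 → List.TFAE [
      ZetaOrder (a / k),
      ∀ ε : ℝ, 0 < ε → ∃ C : ℝ, ∀ T : ℝ, 1 ≤ T → ‖signedMoment k T - T‖ ≤ C * T ^ (a + ε),
      ∀ ε : ℝ, 0 < ε → ∃ C : ℝ, ∀ T : ℝ, 1 ≤ T →
        (ω * (signedMoment k T - T)).re ≤ C * T ^ (a + ε),
      ∀ w : ℝ, a < w → ∃ L : ℂ, Tendsto (fun X : ℝ =>
        ∫ t in (1:ℝ)..X, (riemannZeta (1 / 2 + t * I) ^ k - 1) * ((t ^ (-w) : ℝ) : ℂ))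
          atTop (𝓝 L)]) ∧
    ((∀ ε : ℝ, 0 < ε → ∃ C : ℝ, ∀ t : ℝ, ‖riemannZeta (1 / 2 + t * I)‖ ≤ C * (1 + |t|) ^ ε) ↔
      ∃ A : ℝ, ∃ᶠ k : ℕ in atTop, ∃ ω : ℂ, ω ≠ 0 ∧ ∃ C : ℝ, ∀ T : ℝ, 1 ≤ T →
        (ω * signedMoment k T).re ≤ C * T ^ A) := by
  refine ⟨main, ?_, ?_⟩
  · intro h
    refine ⟨1, ?_⟩
    have hev : ∀ᶠ k : ℕ in atTop, ∃ ω : ℂ, ω ≠ 0 ∧ ∃ C : ℝ, ∀ T : ℝ, 1 ≤ T →
        (ω * signedMoment k T).re ≤ C * T ^ (1:ℝ) := by
      filter_upwards [eventually_ge_atTop 1] with k hk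
      have h1 := (main k 0 1 hk le_rfl one_ne_zero).out 0 1
      have h2 : ZetaOrder (0 / k) := by
        intro ε hε
        obtain ⟨C, hC⟩ := h ε hε
        refine ⟨C, fun t => ?_⟩
        have := hC t
        simpa using this
      obtain ⟨C, hC⟩ := h1.1 h2 1 one_pos
      refine ⟨1, one_ne_zero, C + 1, fun T hT => ?_⟩
      have h3 := hC T hT
      simp only [zero_add] at h3
      rw [one_mul]
      calc (signedMoment k T).re ≤ ‖signedMoment k T‖ := Complex.re_le_norm _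
        _ = ‖(signedMoment k T - T) + T‖ := by congr 1; ring
        _ ≤ ‖signedMoment k T - T‖ + ‖(T : ℂ)‖ := norm_add_le _ _
        _ ≤ C * T ^ (1:ℝ) + T := by
            rw [Complex.norm_real, Real.norm_of_nonneg (by linarith)]
            linarith
        _ = (C + 1) * T ^ (1:ℝ) := by rw [Real.rpow_one]; ring
    exact hev.frequently
  · rintro ⟨A, hfr⟩ ε hε
    set a : ℝ := max A 1 with ha
    have ha1 : 1 ≤ a := le_max_right _ _
    have haA : A ≤ a := le_max_left _ _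
    have hev : ∀ᶠ k : ℕ in atTop, 1 ≤ k ∧ a / k ≤ ε / 2 := by
      have h1 : Tendsto (fun k : ℕ => a / (k : ℝ)) atTop (𝓝 0) := tendsto_const_div_atTop_nhds_zero_nat a
      filter_upwards [eventually_ge_atTop 1, h1.eventually (gt_mem_nhds (by positivity : 0 < ε / 2))]
        with k hk1 hk2
      exact ⟨hk1, hk2.le⟩
    obtain ⟨k, ⟨ω, hω, C, hC⟩, hk1, hk2⟩ := (hfr.and_eventually hev).exists
    have h1 := ((main k a ω hk1 (by linarith) hω).out 0 2).2 (by
      intro ε' hε'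
      refine ⟨|C| + ‖ω‖, fun T hT => ?_⟩
      have h2 := hC T hT
      have e : (ω * (signedMoment k T - T)).re = (ω * signedMoment k T).re - (ω * T).re := by
        rw [mul_sub, Complex.sub_re]
      have h3 : -(ω * (T : ℂ)).re ≤ ‖ω‖ * T := by
        have h4 := Complex.abs_re_le_norm (ω * (T : ℂ))
        rw [norm_mul, Complex.norm_real, Real.norm_of_nonneg (by linarith)] at h4
        have := neg_abs_le (ω * (T : ℂ)).re
        linarith
      have h5 : T ^ A ≤ T ^ (a + ε') := Real.rpow_le_rpow_of_exponent_le hT (by linarith)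
      have h6 : T ≤ T ^ (a + ε') := by
        calc T = T ^ (1:ℝ) := (Real.rpow_one T).symm
          _ ≤ T ^ (a + ε') := Real.rpow_le_rpow_of_exponent_le hT (by linarith)
      have h7 : C * T ^ A ≤ |C| * T ^ (a + ε') := by
        calc C * T ^ A ≤ |C| * T ^ A := mul_le_mul_of_nonneg_right (le_abs_self C) (by positivity)
          _ ≤ _ := mul_le_mul_of_nonneg_left h5 (abs_nonneg C)
      have h8 : ‖ω‖ * T ≤ ‖ω‖ * T ^ (a + ε') := mul_le_mul_of_nonneg_left h6 (norm_nonneg _)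
      rw [e]
      nlinarith)
    obtain ⟨C2, hC2⟩ := h1 (ε / 2) (by positivity)
    refine ⟨max C2 0, fun t => ?_⟩
    have ht : (1:ℝ) ≤ 1 + |t| := by linarith [abs_nonneg t]
    calc ‖riemannZeta (1 / 2 + t * I)‖ ≤ C2 * (1 + |t|) ^ (a / k + ε / 2) := hC2 t
      _ ≤ max C2 0 * (1 + |t|) ^ (a / k + ε / 2) :=
          mul_le_mul_of_nonneg_right (le_max_left _ _) (by positivity)
      _ ≤ max C2 0 * (1 + |t|) ^ ε := by
          apply mul_le_mul_of_nonneg_left _ (le_max_right _ _)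
          exact Real.rpow_le_rpow_of_exponent_le ht (by linarith)

end Pool.Agent.Results.MP_4e5e8a_nt.SignedMoments
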