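import Mathlib
import Pool.Agent.H262R4.TM.All2

/-!
The mean square of `ζ(1/2+it)` times an arbitrary Dirichlet polynomial of length `T ^ θ`, `θ < 14 / 27`.
-/

namespace Pool.Agent.Results.MP_4e5e8a_nt.TwistedMomentAsymptotic
open Finset Filter MeasureTheory Complex

/-- the Gamma probability density with mean `(1 + 1/k) T` and relative width `1/√k` -/
noncomputable def weight (k : ℕ) (T t : ℝ) : ℝ :=
  (k / T) ^ (k + 1) * t ^ k * Real.exp (-(k / T * t)) / (k.factorial : ℝ)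

theorem result (θ : ℝ) (hθ : θ < 14 / 27) : ∃ η : ℝ, 0 < η ∧ ∀ᶠ T : ℝ in atTop, ∀ k : ℕ,
    Real.log T ^ 2 ≤ k → (k : ℝ) ≤ 4 * Real.log T ^ 2 → ∀ N : ℕ, (N : ℝ) ≤ T ^ θ →
    ∀ a : ℕ → ℂ, (∀ n, ‖a n‖ ≤ 1) →
    ‖((∫ t in Set.Ioi (0 : ℝ), weight k T t * ‖riemannZeta (1 / 2 + t * I)‖ ^ 2 *
        ‖∑ n ∈ Icc 1 N, a n * (n : ℂ) ^ (-(1 / 2 + t * I))‖ ^ 2 : ℝ) : ℂ) -
      ∑ h ∈ Icc 1 N, ∑ l ∈ Icc 1 N, a h * (starRingEnd ℂ) (a l) *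
        ((1 / (Nat.lcm h l : ℝ) *
          (Real.log (T / (2 * Real.pi * k) * (Nat.gcd h l : ℝ) ^ 2 / ((h : ℝ) * l)) +
            ((harmonic k : ℝ) + Real.eulerMascheroniConstant)) : ℝ) : ℂ)‖ ≤ T ^ (-η) := by
  obtain ⟨η, hη, h⟩ := Pool.Agent.H262R4.TM.f_TSM2 θ hθ
  refine ⟨η, hη, ?_⟩
  filter_upwards [h] with T hT k hk1 hk2 N hN a ha
  exact hT k ⟨hk1, hk2⟩ N hN a ha

end Pool.Agent.Results.MP_4e5e8a_nt.TwistedMomentAsymptotic
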